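import Pool.Agent.Lib.MP_1a4606_ag.Main

/-!
# Separating polynomials when one of the arcs parametrises a monomial curve
-/

set_option autoImplicit false

open Filter Topology MvPolynomial

namespace Pool.Agent.Results.MP_1a4606_ag.MonomialArc

open Pool.Agent.SepArc

/-- If one of the arcs has the form `t ↦ (k₀ u(t)^n₀, k₁ u(t)^n₁, k₂ u(t)^n₂)`, there is a separating
polynomial. -/
theorem result :
  ∀ (f : MvPolynomial (Fin 3) ℝ) (a c : Fin 3 → Polynomial ℝ) (b d : Polynomial ℝ),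
    b.eval 0 ≠ 0 → d.eval 0 ≠ 0 →
    (∀ i, (a i).eval 0 = 0) → (∀ i, (c i).eval 0 = 0) →
    ((∃ (k : Fin 3 → ℝ) (n : Fin 3 → ℕ) (u : ℝ → ℝ), Tendsto u (𝓝[>] 0) (𝓝 0) ∧
        ∀ᶠ t in 𝓝[>] (0 : ℝ), 0 < u t ∧ ∀ i, (a i).eval t / b.eval t = k i * u t ^ n i) ∨
      (∃ (k : Fin 3 → ℝ) (n : Fin 3 → ℕ) (u : ℝ → ℝ), Tendsto u (𝓝[>] 0) (𝓝 0) ∧
        ∀ᶠ t in 𝓝[>] (0 : ℝ), 0 < u t ∧ ∀ i, (c i).eval t / d.eval t = k i * u t ^ n i)) →
    (∃ ε > (0 : ℝ), ∀ s ∈ Set.Ioo (0 : ℝ) ε, ∀ t ∈ Set.Ioo (0 : ℝ) ε,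
       0 < MvPolynomial.eval (fun i => (a i).eval s / b.eval s) f ∧
       0 < MvPolynomial.eval (fun i => (c i).eval t / d.eval t) f ∧
       connectedComponentIn {x : Fin 3 → ℝ | 0 < MvPolynomial.eval x f}
           (fun i => (a i).eval s / b.eval s) ≠
         connectedComponentIn {x : Fin 3 → ℝ | 0 < MvPolynomial.eval x f}
           (fun i => (c i).eval t / d.eval t)) →
    ∃ g : MvPolynomial (Fin 3) ℝ, ∃ ε > (0 : ℝ), ∀ t ∈ Set.Ioo (0 : ℝ) ε,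
       MvPolynomial.eval (fun i => (a i).eval t / b.eval t) f ≤
         MvPolynomial.eval (fun i => (a i).eval t / b.eval t) g ∧
       MvPolynomial.eval (fun i => (c i).eval t / d.eval t) g ≤ 0 := by
  intro f a c b d hb hd ha hc hmon hadm
  refine finish hb hd ha hc hadm fun ctx => ?_
  rcases hmon with ⟨k, n, u, hu, h⟩ | ⟨k, n, u, hu, h⟩
  · exact ctx.mono k n u (h.mono fun _ ht => ht.1) hu (h.mono fun _ ht => ht.2)
  · exact (ctx.swap.mono k n u (h.mono fun _ ht => ht.1) hu (h.mono fun _ ht => ht.2)).swap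

end Pool.Agent.Results.MP_1a4606_ag.MonomialArc
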