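import Pool.Agent.Lib.MP_1a4606_ag.Main

/-!
# Separating polynomials when one of the arcs has order at most three
-/

set_option autoImplicit false

open Filter Topology MvPolynomial

namespace Pool.Agent.Results.MP_1a4606_ag.OrderThree

open Pool.Agent.SepArc

/-- If a coordinate of `P` or of `Q` has order at most three at `t = 0`, there is a separating
polynomial. -/
theorem result :
  ∀ (f : MvPolynomial (Fin 3) ℝ) (a c : Fin 3 → Polynomial ℝ) (b d : Polynomial ℝ),
    b.eval 0 ≠ 0 → d.eval 0 ≠ 0 →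
    (∀ i, (a i).eval 0 = 0) → (∀ i, (c i).eval 0 = 0) →
    ((∃ i, ¬ Polynomial.X ^ 4 ∣ a i) ∨ (∃ i, ¬ Polynomial.X ^ 4 ∣ c i)) →
    (∃ ε > (0 : ℝ), ∀ s ∈ Set.Ioo (0 : ℝ) ε, ∀ t ∈ Set.Ioo (0 : ℝ) ε,
       0 < MvPolynomial.eval (fun i => (a i).eval s / b.eval s) f ∧
       0 < MvPolynomial.eval (fun i => (c i).eval t / d.eval t) f ∧
       connectedComponentIn {x : Fin 3 → ℝ | 0 < MvPolynomial.eval x f}
           (fun i => (a i).eval s / b.eval s) ≠
         connectedComponentIn {x : Fin 3 → ℝ | 0 < MvPolynomial.eval x f}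
           (fun i => (c i).eval t / d.eval t)) →
    ∃ g : MvPolynomial (Fin 3) ℝ, ∃ ε > (0 : ℝ), ∀ t ∈ Set.Ioo (0 : ℝ) ε,
       MvPolynomial.eval (fun i => (a i).eval t / b.eval t) f ≤
         MvPolynomial.eval (fun i => (a i).eval t / b.eval t) g ∧
       MvPolynomial.eval (fun i => (c i).eval t / d.eval t) g ≤ 0 := by
  intro f a c b d hb hd ha hc hord hadm
  refine finish hb hd ha hc hadm fun ctx => ?_
  rcases hord with ⟨i, hi⟩ | ⟨i, hi⟩
  · obtain ⟨m, hm, hx⟩ := hasOrd_rarc hb hi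
    exact ctx.ord_le_three hm hx
  · obtain ⟨m, hm, hx⟩ := hasOrd_rarc hd hi
    exact (ctx.swap.ord_le_three hm hx).swap

end Pool.Agent.Results.MP_1a4606_ag.OrderThree
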